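import Mathlib

namespace Pool.Agent.P.MP_95a67a_ag

open MvPolynomial

/-- An integer vector seen as a real vector. -/
def toReal {n : ℕ} (a : Fin n → ℤ) : Fin n → ℝ := fun i => (a i : ℝ)

/-- The convex cone spanned by the vectors `u ρ`, `ρ ∈ s`. -/
def cone {n r : ℕ} (u : Fin r → Fin n → ℤ) (s : Finset (Fin r)) : Set (Fin n → ℝ) :=
  {v | ∃ c : Fin r → ℝ, (∀ ρ, 0 ≤ c ρ) ∧ v = ∑ ρ ∈ s, c ρ • toReal (u ρ)}

/-- A complete simplicial fan in `ℝ^n` (lattice `ℤ^n`) with `r` rays. Each cone `σ` is recorded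
by the set `σ(1)` of its rays; `u ρ` is the primitive generator of the ray `ρ`. -/
structure CompleteSimplicialFan (n r : ℕ) where
  u : Fin r → Fin n → ℤ
  cones : Finset (Finset (Fin r))
  primitive : ∀ ρ, Finset.univ.gcd (u ρ) = 1
  ray_mem : ∀ ρ, ({ρ} : Finset (Fin r)) ∈ cones
  face_mem : ∀ s ∈ cones, ∀ t ⊆ s, t ∈ cones
  simplicial : ∀ s ∈ cones, LinearIndependent ℝ (fun ρ : s => toReal (u ρ))
  inter : ∀ s ∈ cones, ∀ t ∈ cones, cone u s ∩ cone u t = cone u (s ∩ t)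
  complete : ∀ v : Fin n → ℝ, ∃ s ∈ cones, v ∈ cone u s

namespace CompleteSimplicialFan

variable {n r : ℕ} (Φ : CompleteSimplicialFan n r)

/-- The principal torus-invariant divisors `div(χ^m) = ∑ ⟨m, u ρ⟩ D ρ`, `m ∈ M = ℤ^n`. -/
def principal : AddSubgroup (Fin r → ℤ) where
  carrier := {a | ∃ m : Fin n → ℤ, ∀ ρ, a ρ = ∑ i, m i * Φ.u ρ i}
  zero_mem' := ⟨0, by simp⟩
  add_mem' := by
    rintro a b ⟨m, hm⟩ ⟨m', hm'⟩
    exact ⟨m + m', fun ρ => by simp [hm, hm', add_mul, Finset.sum_add_distrib]⟩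
  neg_mem' := by
    rintro a ⟨m, hm⟩
    exact ⟨-m, fun ρ => by simp [hm]⟩

/-- The class group `Cl(X) = ℤ^{Σ(1)} / M`. -/
abbrev Cl : Type := (Fin r → ℤ) ⧸ Φ.principal

/-- The degree `[D ρ]` of the variable `x ρ`. -/
def degX (ρ : Fin r) : Φ.Cl := QuotientAddGroup.mk (Pi.single ρ 1)

/-- The degree `α` component `S_α` of the Cox ring `S = ℂ[x ρ]`. -/
noncomputable def piece (α : Φ.Cl) : Submodule ℂ (MvPolynomial (Fin r) ℂ) :=
  weightedHomogeneousSubmodule ℂ Φ.degX α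

/-- The irrelevant ideal `B(Σ)`, generated by the products of the `x ρ`, `ρ ∉ σ(1)`. -/
noncomputable def irrelevant : Ideal (MvPolynomial (Fin r) ℂ) :=
  Ideal.span {p | ∃ s ∈ Φ.cones, p = ∏ ρ ∈ sᶜ, X ρ}

/-- The critical degree `ω = ∑ α i - β₀`, where `β₀ = ∑ deg x ρ`. -/
def critical (α : Fin (n + 1) → Φ.Cl) : Φ.Cl := ∑ i, α i - ∑ ρ, Φ.degX ρ

/-- The component `I_α = I ∩ S_α` of an ideal, as a subspace of `S_α`. -/
noncomputable def idealPiece (I : Ideal (MvPolynomial (Fin r) ℂ)) (α : Φ.Cl) :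
    Submodule ℂ (Φ.piece α) :=
  (I.restrictScalars ℂ).comap (Φ.piece α).subtype

end CompleteSimplicialFan

end Pool.Agent.P.MP_95a67a_ag
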