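import Pool.Agent.P.MP_95a67a_ag.Defs

namespace Pool.Agent.P.MP_95a67a_ag.CompleteSimplicialFan

variable {n r : ℕ} (Φ : CompleteSimplicialFan n r)

/-- `s` is a maximal cone of the fan. -/
def IsMaxCone (s : Finset (Fin r)) : Prop := s ∈ Φ.cones ∧ ∀ t ∈ Φ.cones, s ⊆ t → t = s

/-- The divisor `∑ a ρ D ρ` is nef: its support function is convex, that is, for each maximal cone
`σ` some `m ∈ M_ℝ` has `⟨m, u ρ⟩ = -a ρ` on the rays of `σ` and `⟨m, u ρ⟩ ≥ -a ρ` on all rays. -/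
def IsNef (a : Fin r → ℤ) : Prop :=
  ∀ s, Φ.IsMaxCone s → ∃ m : Fin n → ℝ, (∀ ρ ∈ s, ∑ i, m i * (Φ.u ρ i : ℝ) = -(a ρ : ℝ)) ∧
    ∀ ρ, -(a ρ : ℝ) ≤ ∑ i, m i * (Φ.u ρ i : ℝ)

/-- The toric variety is projective: some Cartier divisor `∑ a ρ D ρ` is ample, that is, for each
maximal cone `σ` some `m ∈ M` has `⟨m, u ρ⟩ = -a ρ` on the rays of `σ` and `⟨m, u ρ⟩ > -a ρ` on
the other rays. -/
def IsProjective : Prop :=
  ∃ a : Fin r → ℤ, ∀ s, Φ.IsMaxCone s → ∃ m : Fin n → ℤ,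
    (∀ ρ ∈ s, ∑ i, m i * Φ.u ρ i = -a ρ) ∧ ∀ ρ ∉ s, -a ρ < ∑ i, m i * Φ.u ρ i

end Pool.Agent.P.MP_95a67a_ag.CompleteSimplicialFan
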