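import Pool.Agent.P.MP_95a67a_ag.Proof
import Pool.Agent.P.MP_95a67a_ag.Defs2

/-! The hypotheses of the general theorem hold for the Hirzebruch surface `F₁`. -/

namespace Pool.Agent.P.MP_95a67a_ag

theorem fanH_max {s : Finset (Fin 4)} (hs : fanH.IsMaxCone s) :
    s = {0, 1} ∨ s = {1, 2} ∨ s = {2, 3} ∨ s = {0, 3} := by
  have h : s ∈ conesH ∧ ∀ t ∈ conesH, s ⊆ t → t = s := hs
  clear hs
  revert s
  decide

theorem fanH_proj : fanH.IsProjective := by
  refine ⟨![1, 0, 0, 1], fun s hs => ?_⟩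
  rcases fanH_max hs with rfl | rfl | rfl | rfl
  · exact ⟨![-1, 0], by decide, by decide⟩
  · exact ⟨![0, 0], by decide, by decide⟩
  · exact ⟨![1, 1], by decide, by decide⟩
  · exact ⟨![-1, 1], by decide, by decide⟩

theorem fanH_not_nef : ¬fanH.IsNef ![0, 1, 0, 0] := fun h => by
  have hm : fanH.IsMaxCone {0, 1} := by
    show _ ∈ conesH ∧ ∀ t ∈ conesH, _ ⊆ t → t = _
    decide
  obtain ⟨m, h1, h2⟩ := h _ hm
  have e0 := h1 0 (by simp)
  have e1 := h1 1 (by simp)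
  have e2 := h2 2
  simp [fanH, uH, Fin.sum_univ_two] at e0 e1 e2
  linarith

end Pool.Agent.P.MP_95a67a_ag
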