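import Pool.Agent.P.MP_95a67a_ag.Defs2

namespace Pool.Agent.P.MP_95a67a_ag.CompleteSimplicialFan

open MvPolynomial Finset

variable {n r : ℕ} (Φ : CompleteSimplicialFan n r)

/-- The pairing with a real covector. -/
def pr (m v : Fin n → ℝ) : ℝ := ∑ i, m i * v i

theorem pr_sum (m : Fin n → ℝ) (s : Finset (Fin r)) (c : Fin r → ℝ) (v : Fin r → Fin n → ℝ) :
    pr m (∑ ρ ∈ s, c ρ • v ρ) = ∑ ρ ∈ s, c ρ * pr m (v ρ) := by
  simp only [pr, Finset.sum_apply, Pi.smul_apply, smul_eq_mul, Finset.mul_sum]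
  rw [Finset.sum_comm]
  exact Finset.sum_congr rfl fun _ _ => Finset.sum_congr rfl fun _ _ => by ring

theorem empty_mem : (∅ : Finset (Fin r)) ∈ Φ.cones :=
  let ⟨s, hs, _⟩ := Φ.complete 0
  Φ.face_mem s hs _ (Finset.empty_subset _)

theorem exists_max {s : Finset (Fin r)} (hs : s ∈ Φ.cones) : ∃ t, Φ.IsMaxCone t ∧ s ⊆ t := by
  obtain ⟨t, ht, hm⟩ := Finset.exists_max_image (Φ.cones.filter (s ⊆ ·)) Finset.card
    ⟨s, by simp [hs]⟩
  rw [Finset.mem_filter] at ht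
  exact ⟨t, ⟨ht.1, fun t' h1 h2 => (Finset.eq_of_subset_of_card_le h2
    (hm t' (Finset.mem_filter.2 ⟨h1, ht.2.trans h2⟩))).symm⟩, ht.2⟩

theorem card_le {s : Finset (Fin r)} (hs : s ∈ Φ.cones) : s.card ≤ n := by
  simpa using (Φ.simplicial s hs).fintype_card_le_finrank

theorem exists_dual {s : Finset (Fin r)} (hs : s ∈ Φ.cones) (b : Fin r → ℝ) :
    ∃ m : Fin n → ℝ, ∀ ρ ∈ s, pr m (toReal (Φ.u ρ)) = b ρ := by
  have h := Φ.simplicial s hs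
  obtain ⟨g, hg⟩ := LinearMap.exists_leftInverse_of_injective
    (Finsupp.linearCombination ℝ fun ρ : s => toReal (Φ.u ρ)) (LinearMap.ker_eq_bot.2 h)
  let f := Finsupp.linearCombination ℝ (fun ρ : s => b ρ) ∘ₗ g
  refine ⟨fun i => f (Pi.single i 1), fun ρ hρ => ?_⟩
  have h1 : f (toReal (Φ.u ρ)) = b ρ := by
    have := LinearMap.congr_fun hg (Finsupp.single ⟨ρ, hρ⟩ 1)
    simp only [LinearMap.comp_apply, Finsupp.linearCombination_single, one_smul,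
      LinearMap.id_apply] at this
    simp [f, this]
  rw [← h1, LinearMap.pi_apply_eq_sum_univ, pr]
  refine Finset.sum_congr rfl fun i _ => ?_
  rw [smul_eq_mul, mul_comm]
  congr 2
  ext j
  simp [Pi.single_apply, eq_comm]

/-- A positive linear relation among all rays. -/
theorem exists_rel : ∃ l : Fin r → ℝ, (∀ ρ, 1 ≤ l ρ) ∧
    ∀ m : Fin n → ℝ, ∑ ρ, l ρ * pr m (toReal (Φ.u ρ)) = 0 := by
  classical
  obtain ⟨s, -, c, hc, h⟩ := Φ.complete (∑ ρ, (-1 : ℝ) • toReal (Φ.u ρ))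
  refine ⟨fun ρ => 1 + if ρ ∈ s then c ρ else 0, fun ρ => ?_, fun m => ?_⟩
  · have := hc ρ
    dsimp only
    split_ifs <;> linarith
  · have := congrArg (pr m) h
    rw [pr_sum, pr_sum] at this
    simp only [add_mul, Finset.sum_add_distrib, ite_mul, zero_mul, Finset.sum_ite_mem,
      Finset.univ_inter, ← this]
    simp

theorem pr_int (m v : Fin n → ℤ) : pr (toReal m) (toReal v) = (∑ i, m i * v i : ℤ) := by
  simp [pr, toReal]

/-- A non-nef effective divisor gives a set of rays in an open half space that is not a cone. -/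
theorem exists_nonface {a : Fin r → ℤ} (ha : ∀ ρ, 0 ≤ a ρ) (h : ¬Φ.IsNef a) :
    ∃ P ∉ Φ.cones, ∃ m : Fin n → ℤ, ∀ ρ ∈ P, 0 < ∑ i, m i * Φ.u ρ i := by
  classical
  simp only [IsNef, not_forall, not_exists, not_and, not_le] at h
  obtain ⟨s, hs, h⟩ := h
  obtain ⟨m, hm⟩ := Φ.exists_dual hs.1 fun ρ => -(a ρ : ℝ)
  obtain ⟨m', hm'⟩ := Φ.exists_dual hs.1 fun _ => 1
  obtain ⟨ρ', h1⟩ := h m hm
  have h2 : ρ' ∉ s := fun h2 => (hm ρ' h2).not_lt h1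
  have h3 : pr m (toReal (Φ.u ρ')) < 0 := h1.trans_le (by have := ha ρ'; simpa)
  refine ⟨insert ρ' s, fun h4 => h2 (hs.2 _ h4 (Finset.subset_insert _ _) ▸
    Finset.mem_insert_self _ _), ?_⟩
  obtain ⟨K, hK0, hK⟩ : ∃ K : ℝ, 0 ≤ K ∧
      1 ≤ pr m' (toReal (Φ.u ρ')) - K * pr m (toReal (Φ.u ρ')) := by
    refine ⟨(1 + |pr m' (toReal (Φ.u ρ'))|) / -pr m (toReal (Φ.u ρ')),
      div_nonneg (by positivity) (by linarith), ?_⟩
    rw [div_neg, neg_mul, div_mul_cancel₀ _ h3.ne]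
    linarith [neg_abs_le (pr m' (toReal (Φ.u ρ')))]
  have h5 : ∀ ρ ∈ insert ρ' s, 1 ≤ pr m' (toReal (Φ.u ρ)) - K * pr m (toReal (Φ.u ρ)) := by
    intro ρ hρ
    rcases Finset.mem_insert.1 hρ with rfl | hρ
    · exact hK
    · rw [hm ρ hρ, hm' ρ hρ]
      have : (0 : ℝ) ≤ a ρ := by exact_mod_cast ha ρ
      nlinarith
  obtain ⟨L, hL⟩ : ∃ L : ℝ, L = 1 + ∑ ρ, ∑ i, |(Φ.u ρ i : ℝ)| := ⟨_, rfl⟩
  refine ⟨fun i => ⌊L * (m' i - K * m i)⌋, fun ρ hρ => ?_⟩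
  have h6 : ∑ i, |(Φ.u ρ i : ℝ)| ≤ ∑ ρ, ∑ i, |(Φ.u ρ i : ℝ)| :=
    Finset.single_le_sum (f := fun ρ => ∑ i, |(Φ.u ρ i : ℝ)|) (fun _ _ => by positivity)
      (Finset.mem_univ ρ)
  have h7 : ∑ i, (L * (m' i - K * m i) * Φ.u ρ i - |(Φ.u ρ i : ℝ)|) ≤
      ∑ i, (⌊L * (m' i - K * m i)⌋ : ℝ) * Φ.u ρ i := Finset.sum_le_sum fun i _ => by
    have e1 := Int.fract_nonneg (L * (m' i - K * m i))
    have e2 := Int.fract_lt_one (L * (m' i - K * m i))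
    rw [← Int.self_sub_fract]
    nlinarith [le_abs_self (Φ.u ρ i : ℝ), abs_nonneg (Φ.u ρ i : ℝ)]
  have h8 : ∑ i, L * (m' i - K * m i) * Φ.u ρ i =
      L * (pr m' (toReal (Φ.u ρ)) - K * pr m (toReal (Φ.u ρ))) := by
    simp only [pr, toReal, Finset.mul_sum, ← Finset.sum_sub_distrib]
    exact Finset.sum_congr rfl fun _ _ => by ring
  rw [Finset.sum_sub_distrib, h8] at h7
  have h9 : 0 ≤ L := by rw [hL]; positivity
  have : (0 : ℝ) < ∑ i, (⌊L * (m' i - K * m i)⌋ : ℝ) * Φ.u ρ i := by nlinarith [h5 ρ hρ]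
  exact_mod_cast this

/-- On a projective fan one class contains, for each cone, a monomial in all other variables. -/
theorem exists_face (h : Φ.IsProjective) : ∃ (b : Fin r → ℤ) (e : Finset (Fin r) → Fin r → ℤ),
    ∀ s ∈ Φ.cones, e s - b ∈ Φ.principal ∧ (∀ ρ ∈ s, e s ρ = 0) ∧ (∀ ρ, 0 ≤ e s ρ) ∧
      ∀ ρ ∉ s, 1 ≤ e s ρ := by
  classical
  obtain ⟨a, h⟩ := h
  choose! m h1 h2 using h
  choose! σ h3 h4 using fun s (hs : s ∈ Φ.cones) => Φ.exists_max hs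
  obtain ⟨w, hw⟩ : ∃ w : Finset (Fin r) → Fin r → ℤ,
    ∀ t ρ, w t ρ = a ρ + ∑ i, m t i * Φ.u ρ i := ⟨_, fun _ _ => rfl⟩
  have w0 : ∀ t, Φ.IsMaxCone t → ∀ ρ ∈ t, w t ρ = 0 := fun t ht ρ hρ => by
    rw [hw, h1 t ht ρ hρ, add_neg_cancel]
  have w1 : ∀ t, Φ.IsMaxCone t → ∀ ρ ∉ t, 1 ≤ w t ρ := fun t ht ρ hρ => by
    have := h2 t ht ρ hρ
    rw [hw]
    omega
  have w2 : ∀ t, Φ.IsMaxCone t → ∀ ρ, 0 ≤ w t ρ := fun t ht ρ => by
    by_cases hρ : ρ ∈ t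
    · exact (w0 t ht ρ hρ).ge
    · exact zero_le_one.trans (w1 t ht ρ hρ)
  have key : ∀ s ∈ Φ.cones, ∀ ρ ∉ s, ∃ t, Φ.IsMaxCone t ∧ s ⊆ t ∧ ρ ∉ t := by
    intro s hs ρ hρ
    obtain ⟨K, hK⟩ : ∃ K : ℝ, K = w (σ s) ρ + 1 + ∑ t, |(w t ρ : ℝ)| := ⟨_, rfl⟩
    obtain ⟨t', ht', c, hc, hv⟩ := Φ.complete
      (∑ x ∈ insert ρ s, (if x = ρ then -1 else K) • toReal (Φ.u x))
    have ht := h3 t' ht'
    have hp : ∀ y : Fin n → ℝ, -pr y (toReal (Φ.u ρ)) + K * ∑ x ∈ s, pr y (toReal (Φ.u x)) =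
        ∑ x ∈ t', c x * pr y (toReal (Φ.u x)) := fun y => by
      rw [← pr_sum, ← hv, pr_sum, Finset.sum_insert hρ, if_pos rfl, Finset.mul_sum, neg_one_mul]
      congr 1
      exact Finset.sum_congr rfl fun x hx => by rw [if_neg fun e : x = ρ => hρ (e ▸ hx)]
    have hs' : s ⊆ σ t' := fun x hx => by
      by_contra hn
      have e := hp (toReal (m (σ s) - m (σ t')))
      have e1 : ∀ x, pr (toReal (m (σ s) - m (σ t'))) (toReal (Φ.u x)) =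
          (w (σ s) x : ℝ) - w (σ t') x := fun x => by
        rw [pr_int, hw, hw]
        simp [sub_mul]
      simp only [e1] at e
      have e2 : 0 ≤ ∑ x ∈ t', c x * ((w (σ s) x : ℝ) - w (σ t') x) :=
        Finset.sum_nonneg fun x hx => mul_nonneg (hc x) (by
          rw [w0 _ ht x (h4 t' ht' hx), Int.cast_zero, sub_zero]
          exact_mod_cast w2 _ (h3 s hs) x)
      have e3 : ∑ x ∈ s, ((w (σ s) x : ℝ) - w (σ t') x) ≤ -1 := by
        rw [← Finset.add_sum_erase s _ hx]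
        have e4 : ∑ x ∈ s.erase x, ((w (σ s) x : ℝ) - w (σ t') x) ≤ 0 :=
          Finset.sum_nonpos fun y hy => by
            rw [w0 _ (h3 s hs) y (h4 s hs (Finset.mem_of_mem_erase hy)), Int.cast_zero, zero_sub,
              neg_nonpos]
            exact_mod_cast w2 _ ht y
        have e5 : (1 : ℝ) ≤ w (σ t') x := by exact_mod_cast w1 _ ht x hn
        rw [w0 _ (h3 s hs) x (h4 s hs hx), Int.cast_zero]
        linarith
      have e4 : |(w (σ t') ρ : ℝ)| ≤ ∑ t, |(w t ρ : ℝ)| :=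
        Finset.single_le_sum (f := fun t => |(w t ρ : ℝ)|) (fun _ _ => abs_nonneg _)
          (Finset.mem_univ _)
      have e5 : (0 : ℝ) ≤ w (σ s) ρ := by exact_mod_cast w2 _ (h3 s hs) ρ
      have e6 := le_abs_self (w (σ t') ρ : ℝ)
      have e7 := abs_nonneg (w (σ t') ρ : ℝ)
      nlinarith
    refine ⟨σ t', ht, hs', fun hρ' => ?_⟩
    obtain ⟨y, hy⟩ := Φ.exists_dual ht.1 fun x => if x = ρ then 1 else 0
    have e := hp y
    rw [hy ρ hρ', if_pos rfl, Finset.sum_eq_zero fun x hx => by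
      rw [hy x (hs' hx), if_neg fun e : x = ρ => hρ (e ▸ hx)]] at e
    have e2 : 0 ≤ ∑ x ∈ t', c x * pr y (toReal (Φ.u x)) := Finset.sum_nonneg fun x hx =>
      mul_nonneg (hc x) (by rw [hy x (h4 t' ht' hx)]; split_ifs <;> norm_num)
    linarith
  let Mx := Φ.cones.filter Φ.IsMaxCone
  have hm : ∀ s ∈ Φ.cones, ∀ t ∈ Mx, Φ.IsMaxCone (if s ⊆ t then t else σ s) ∧
      s ⊆ (if s ⊆ t then t else σ s) := fun s hs t ht => by
    split_ifs with h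
    · exact ⟨(Finset.mem_filter.1 ht).2, h⟩
    · exact ⟨h3 s hs, h4 s hs⟩
  refine ⟨∑ _t ∈ Mx, a, fun s => ∑ t ∈ Mx, w (if s ⊆ t then t else σ s), fun s hs =>
    ⟨?_, fun ρ hρ => ?_, fun ρ => ?_, fun ρ hρ => ?_⟩⟩
  · rw [← Finset.sum_sub_distrib]
    exact sum_mem fun t _ => ⟨_, fun ρ => by rw [Pi.sub_apply, hw, add_sub_cancel_left]⟩
  · simp only [Finset.sum_apply]
    exact Finset.sum_eq_zero fun t ht => w0 _ (hm s hs t ht).1 ρ ((hm s hs t ht).2 hρ)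
  · simp only [Finset.sum_apply]
    exact Finset.sum_nonneg fun t ht => w2 _ (hm s hs t ht).1 ρ
  · obtain ⟨t, h5, h6, h7⟩ := key s hs ρ hρ
    simp only [Finset.sum_apply]
    refine le_trans ?_ (Finset.single_le_sum (fun t ht => w2 _ (hm s hs t ht).1 ρ)
      (Finset.mem_filter.2 ⟨h5.1, h5⟩))
    rw [if_pos h6]
    exact w1 t h5 ρ h7

end Pool.Agent.P.MP_95a67a_ag.CompleteSimplicialFan
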