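import Pool.Agent.P.MP_95a67a_ag.Defs

namespace Pool.Agent.P.MP_95a67a_ag

open MvPolynomial

/-! The example. Variables: `x = X 0`, `z = X 1`, `y = X 2`, `w = X 3`. -/

def uH : Fin 4 → Fin 2 → ℤ := ![![1, 0], ![0, 1], ![-1, 1], ![0, -1]]

def conesH : Finset (Finset (Fin 4)) :=
  {∅, {0}, {1}, {2}, {3}, {0, 1}, {1, 2}, {2, 3}, {0, 3}}

lemma mem_cone_iff (s : Finset (Fin 4)) (v : Fin 2 → ℝ) :
    v ∈ cone uH s ↔ ∃ c0 c1 c2 c3 : ℝ, 0 ≤ c0 ∧ 0 ≤ c1 ∧ 0 ≤ c2 ∧ 0 ≤ c3 ∧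
      (0 ∉ s → c0 = 0) ∧ (1 ∉ s → c1 = 0) ∧ (2 ∉ s → c2 = 0) ∧ (3 ∉ s → c3 = 0) ∧
      v 0 = c0 - c2 ∧ v 1 = c1 + c2 - c3 := by
  constructor
  · rintro ⟨c, hc, rfl⟩
    refine ⟨if 0 ∈ s then c 0 else 0, if 1 ∈ s then c 1 else 0, if 2 ∈ s then c 2 else 0,
      if 3 ∈ s then c 3 else 0, ?_, ?_, ?_, ?_, ?_, ?_, ?_, ?_, ?_, ?_⟩
    · split_ifs <;> simp [hc]
    · split_ifs <;> simp [hc]
    · split_ifs <;> simp [hc]
    · split_ifs <;> simp [hc]
    · intro h; simp [h]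
    · intro h; simp [h]
    · intro h; simp [h]
    · intro h; simp [h]
    · rw [← Finset.sum_ite_mem_eq s, Fin.sum_univ_four]
      split_ifs <;> simp [toReal, uH] <;> ring
    · rw [← Finset.sum_ite_mem_eq s, Fin.sum_univ_four]
      split_ifs <;> simp [toReal, uH] <;> ring
  · rintro ⟨c0, c1, c2, c3, h0, h1, h2, h3, g0, g1, g2, g3, e0, e1⟩
    refine ⟨![c0, c1, c2, c3], ?_, ?_⟩
    · intro ρ; fin_cases ρ <;> simpa
    · rw [← Finset.sum_ite_mem_eq s, Fin.sum_univ_four]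
      ext i
      fin_cases i <;> split_ifs <;> simp_all [toReal, uH] <;> ring

lemma conesH_cases {s : Finset (Fin 4)} (hs : s ∈ conesH) :
    s = ∅ ∨ s = {0} ∨ s = {1} ∨ s = {2} ∨ s = {3} ∨ s = {0, 1} ∨ s = {1, 2} ∨ s = {2, 3} ∨
      s = {0, 3} := by
  simpa [conesH] using hs

lemma cone_mono {s t : Finset (Fin 4)} (h : s ⊆ t) : cone uH s ⊆ cone uH t := by
  intro v hv
  rw [mem_cone_iff] at hv ⊢
  obtain ⟨c0, c1, c2, c3, h0, h1, h2, h3, g0, g1, g2, g3, e0, e1⟩ := hv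
  exact ⟨c0, c1, c2, c3, h0, h1, h2, h3, fun k => g0 fun k' => k (h k'),
    fun k => g1 fun k' => k (h k'), fun k => g2 fun k' => k (h k'),
    fun k => g3 fun k' => k (h k'), e0, e1⟩

lemma not_both {s : Finset (Fin 4)} (hs : s ∈ conesH) :
    (0 ∉ s ∨ 2 ∉ s) ∧ (1 ∉ s ∨ 3 ∉ s) := by
  revert s; decide

lemma coords_unique {c0 c1 c2 c3 d0 d1 d2 d3 : ℝ} (h0 : 0 ≤ c0) (h1 : 0 ≤ c1) (h2 : 0 ≤ c2)
    (h3 : 0 ≤ c3) (k0 : 0 ≤ d0) (k1 : 0 ≤ d1) (k2 : 0 ≤ d2) (k3 : 0 ≤ d3)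
    (a : c0 = 0 ∨ c2 = 0) (b : c1 = 0 ∨ c3 = 0) (a' : d0 = 0 ∨ d2 = 0) (b' : d1 = 0 ∨ d3 = 0)
    (e0 : c0 - c2 = d0 - d2) (e1 : c1 + c2 - c3 = d1 + d2 - d3) :
    c0 = d0 ∧ c1 = d1 ∧ c2 = d2 ∧ c3 = d3 := by
  have A : c0 = d0 ∧ c2 = d2 := by
    rcases a with a | a <;> rcases a' with a' | a' <;> constructor <;> linarith
  have B : c1 = d1 ∧ c3 = d3 := by
    rcases b with b | b <;> rcases b' with b' | b' <;> constructor <;> linarith [A.2]
  exact ⟨A.1, B.1, A.2, B.2⟩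

/-- The fan of the Hirzebruch surface `F₁`. -/
def fanH : CompleteSimplicialFan 2 4 where
  u := uH
  cones := conesH
  primitive := by decide
  ray_mem := by decide
  face_mem := by decide
  simplicial := by
    intro s hs
    rw [Fintype.linearIndependent_iff]
    intro g hg
    have nb := not_both hs
    have key : ∑ ρ : Fin 4, (if h : ρ ∈ s then g ⟨ρ, h⟩ else 0) • toReal (uH ρ) = 0 := by
      rw [← hg, ← Finset.sum_subset (Finset.subset_univ s)]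
      · rw [← Finset.sum_coe_sort s]
        refine Finset.sum_congr rfl fun ρ _ => ?_
        simp
      · intro ρ _ h
        simp [h]
    set c : Fin 4 → ℝ := fun ρ => if h : ρ ∈ s then g ⟨ρ, h⟩ else 0 with hc
    have e0 := congrFun key 0
    have e1 := congrFun key 1
    simp only [Fin.sum_univ_four, toReal, uH, Pi.add_apply, Pi.smul_apply, smul_eq_mul,
      Pi.zero_apply] at e0 e1
    have e0' : c 0 - c 2 = 0 := by simpa [sub_eq_add_neg] using e0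
    have e1' : c 1 + c 2 - c 3 = 0 := by simpa [sub_eq_add_neg] using e1
    have a : c 0 = 0 ∨ c 2 = 0 := by
      rcases nb.1 with h | h
      · left; simp [hc, h]
      · right; simp [hc, h]
    have b : c 1 = 0 ∨ c 3 = 0 := by
      rcases nb.2 with h | h
      · left; simp [hc, h]
      · right; simp [hc, h]
    have hall : ∀ ρ, c ρ = 0 := by
      have A : c 0 = 0 ∧ c 2 = 0 := by
        rcases a with a | a <;> constructor <;> linarith
      have B : c 1 = 0 ∧ c 3 = 0 := by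
        rcases b with b | b <;> constructor <;> linarith [A.2]
      intro ρ
      fin_cases ρ
      · exact A.1
      · exact B.1
      · exact A.2
      · exact B.2
    rintro ⟨ρ, hρ⟩
    have := hall ρ
    simpa [hc, hρ] using this
  inter := by
    intro s hs t ht
    apply Set.Subset.antisymm
    · rintro v ⟨hv, hv'⟩
      rw [mem_cone_iff] at hv hv' ⊢
      obtain ⟨c0, c1, c2, c3, h0, h1, h2, h3, g0, g1, g2, g3, e0, e1⟩ := hv
      obtain ⟨d0, d1, d2, d3, k0, k1, k2, k3, f0, f1, f2, f3, e0', e1'⟩ := hv'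
      have nb := not_both hs
      have nb' := not_both ht
      obtain ⟨rfl, rfl, rfl, rfl⟩ := coords_unique h0 h1 h2 h3 k0 k1 k2 k3
        (nb.1.imp g0 g2) (nb.2.imp g1 g3) (nb'.1.imp f0 f2) (nb'.2.imp f1 f3)
        (by linarith) (by linarith)
      refine ⟨c0, c1, c2, c3, h0, h1, h2, h3, ?_, ?_, ?_, ?_, e0, e1⟩ <;>
        rw [Finset.mem_inter, not_and_or] <;> rintro (h | h)
      exacts [g0 h, f0 h, g1 h, f1 h, g2 h, f2 h, g3 h, f3 h]
    · exact Set.subset_inter (cone_mono Finset.inter_subset_left)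
        (cone_mono Finset.inter_subset_right)
  complete := by
    intro v
    rcases le_total 0 (v 0) with h | h
    · rcases le_total 0 (v 1) with k | k
      · exact ⟨{0, 1}, by decide, (mem_cone_iff _ _).2
          ⟨v 0, v 1, 0, 0, h, k, le_rfl, le_rfl, by simp, by simp, by simp, by simp,
            by ring, by ring⟩⟩
      · exact ⟨{0, 3}, by decide, (mem_cone_iff _ _).2
          ⟨v 0, 0, 0, -v 1, h, le_rfl, le_rfl, by linarith, by simp, by simp, by simp, by simp,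
            by ring, by ring⟩⟩
    · rcases le_total 0 (v 0 + v 1) with k | k
      · exact ⟨{1, 2}, by decide, (mem_cone_iff _ _).2
          ⟨0, v 0 + v 1, -v 0, 0, le_rfl, k, by linarith, le_rfl, by simp, by simp, by simp,
            by simp, by ring, by ring⟩⟩
      · exact ⟨{2, 3}, by decide, (mem_cone_iff _ _).2
          ⟨0, 0, -v 0, -(v 0 + v 1), le_rfl, le_rfl, by linarith, by linarith, by simp, by simp,
            by simp, by simp, by ring, by ring⟩⟩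

/-- Equality of classes in `Cl(F₁) ≅ ℤ²`. -/
lemma mk_eq_iff (a b : Fin 4 → ℤ) :
    (QuotientAddGroup.mk a : fanH.Cl) = QuotientAddGroup.mk b ↔
      a 0 + a 2 + a 3 = b 0 + b 2 + b 3 ∧ a 1 + a 3 = b 1 + b 3 := by
  rw [QuotientAddGroup.eq]
  constructor
  · rintro ⟨m, hm⟩
    have h0 := hm 0
    have h1 := hm 1
    have h2 := hm 2
    have h3 := hm 3
    simp [fanH, uH, Fin.sum_univ_two] at h0 h1 h2 h3
    constructor <;> linarith
  · rintro ⟨h, k⟩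
    refine ⟨![-a 0 + b 0, -a 1 + b 1], fun ρ => ?_⟩
    fin_cases ρ <;> simp [fanH, uH, Fin.sum_univ_two] <;> linarith

lemma weight_eq (d : Fin 4 →₀ ℕ) :
    Finsupp.weight fanH.degX d = (QuotientAddGroup.mk (fun i => (d i : ℤ)) : fanH.Cl) := by
  rw [Finsupp.weight_apply, Finsupp.sum_fintype _ _ (by simp)]
  simp only [CompleteSimplicialFan.degX]
  rw [show (QuotientAddGroup.mk (fun i => (d i : ℤ)) : fanH.Cl) =
    QuotientAddGroup.mk' _ (fun i => (d i : ℤ)) from rfl]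
  have : (fun i => (d i : ℤ)) = ∑ i : Fin 4, d i • (Pi.single i 1 : Fin 4 → ℤ) := by
    ext j
    simp [Finset.sum_apply, Pi.single_apply]
  rw [this, map_sum]
  simp

/-- Exponent vectors. -/
noncomputable def ex (a b c d : ℕ) : Fin 4 →₀ ℕ := Finsupp.equivFunOnFinite.symm ![a, b, c, d]

@[simp] lemma ex0 (a b c d : ℕ) : ex a b c d 0 = a := rfl
@[simp] lemma ex1 (a b c d : ℕ) : ex a b c d 1 = b := rfl
@[simp] lemma ex2 (a b c d : ℕ) : ex a b c d 2 = c := rfl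
@[simp] lemma ex3 (a b c d : ℕ) : ex a b c d 3 = d := rfl

lemma eq_ex (e : Fin 4 →₀ ℕ) : e = ex (e 0) (e 1) (e 2) (e 3) := by
  ext i; fin_cases i <;> rfl

lemma ex_inj {a b c d a' b' c' d' : ℕ} :
    ex a b c d = ex a' b' c' d' ↔ a = a' ∧ b = b' ∧ c = c' ∧ d = d' := by
  constructor
  · intro h
    exact ⟨by simpa using DFunLike.congr_fun h 0, by simpa using DFunLike.congr_fun h 1,
      by simpa using DFunLike.congr_fun h 2, by simpa using DFunLike.congr_fun h 3⟩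
  · rintro ⟨rfl, rfl, rfl, rfl⟩; rfl

lemma ex_le {a b c d a' b' c' d' : ℕ} :
    ex a b c d ≤ ex a' b' c' d' ↔ a ≤ a' ∧ b ≤ b' ∧ c ≤ c' ∧ d ≤ d' := by
  rw [Finsupp.le_def, Fin.forall_fin_succ, Fin.forall_fin_succ, Fin.forall_fin_succ,
    Fin.forall_fin_one]
  rfl

lemma ex_sub (a b c d a' b' c' d' : ℕ) :
    ex a b c d - ex a' b' c' d' = ex (a - a') (b - b') (c - c') (d - d') := by
  ext i; fin_cases i <;> rfl

lemma monomial_ex (a b c d : ℕ) (t : ℂ) :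
    (monomial (ex a b c d) t : MvPolynomial (Fin 4) ℂ) =
      C t * (X 0 ^ a * X 1 ^ b * X 2 ^ c * X 3 ^ d) := by
  rw [monomial_eq, Finsupp.prod_fintype _ _ (by simp), Fin.prod_univ_four]
  simp

/-- The three polynomials `x z²`, `x w + y² z`, `y w`. -/
noncomputable def FH : Fin 3 → MvPolynomial (Fin 4) ℂ :=
  ![X 0 * X 1 ^ 2, X 0 * X 3 + X 2 ^ 2 * X 1, X 2 * X 3]

lemma FH0 : FH 0 = monomial (ex 1 2 0 0) 1 := by simp [FH, monomial_ex]
lemma FH1 : FH 1 = monomial (ex 1 0 0 1) 1 + monomial (ex 0 1 2 0) 1 := by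
  simp [FH, monomial_ex]; ring
lemma FH2 : FH 2 = monomial (ex 0 0 1 1) 1 := by simp [FH, monomial_ex]

/-- Their degrees. -/
def αH : Fin 3 → fanH.Cl :=
  ![QuotientAddGroup.mk ![1, 2, 0, 0], QuotientAddGroup.mk ![1, 0, 0, 1],
    QuotientAddGroup.mk ![0, 0, 1, 1]]

lemma mono_mem (a b c d : ℕ) (t : ℂ) (v : Fin 4 → ℤ)
    (h : (a : ℤ) + c + d = v 0 + v 2 + v 3 ∧ (b : ℤ) + d = v 1 + v 3) :
    (monomial (ex a b c d) t : MvPolynomial (Fin 4) ℂ) ∈ fanH.piece (QuotientAddGroup.mk v) := by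
  apply isWeightedHomogeneous_monomial
  rw [weight_eq, mk_eq_iff]
  simpa using h

lemma FH_mem (i : Fin 3) : FH i ∈ fanH.piece (αH i) := by
  fin_cases i
  · exact FH0 ▸ mono_mem 1 2 0 0 1 ![1, 2, 0, 0] (by simp)
  · exact FH1 ▸ add_mem (mono_mem 1 0 0 1 1 ![1, 0, 0, 1] (by simp))
      (mono_mem 0 1 2 0 1 ![1, 0, 0, 1] (by simp))
  · exact FH2 ▸ mono_mem 0 0 1 1 1 ![0, 0, 1, 1] (by simp)

lemma critical_eq : fanH.critical αH = QuotientAddGroup.mk ![0, 0, 0, 2] := by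
  simp only [CompleteSimplicialFan.critical, CompleteSimplicialFan.degX, αH,
    Fin.sum_univ_succ, Fin.sum_univ_zero]
  simp only [Matrix.cons_val_zero, Matrix.cons_val_succ, add_zero, ← QuotientAddGroup.mk_add,
    ← QuotientAddGroup.mk_sub]
  rw [mk_eq_iff]
  simp

lemma gen_mem (s : Finset (Fin 4)) (hs : s ∈ conesH) :
    (∏ ρ ∈ sᶜ, X ρ : MvPolynomial (Fin 4) ℂ) ∈ fanH.irrelevant :=
  Ideal.subset_span ⟨s, hs, rfl⟩

lemma xz_mem : (X 0 * X 1 : MvPolynomial (Fin 4) ℂ) ∈ fanH.irrelevant := by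
  have := gen_mem {2, 3} (by decide)
  rwa [show ({2, 3} : Finset (Fin 4))ᶜ = {0, 1} by decide, Finset.prod_pair (by decide)] at this

lemma xw_mem : (X 0 * X 3 : MvPolynomial (Fin 4) ℂ) ∈ fanH.irrelevant := by
  have := gen_mem {1, 2} (by decide)
  rwa [show ({1, 2} : Finset (Fin 4))ᶜ = {0, 3} by decide, Finset.prod_pair (by decide)] at this

lemma zy_mem : (X 1 * X 2 : MvPolynomial (Fin 4) ℂ) ∈ fanH.irrelevant := by
  have := gen_mem {0, 3} (by decide)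
  rwa [show ({0, 3} : Finset (Fin 4))ᶜ = {1, 2} by decide, Finset.prod_pair (by decide)] at this

lemma yw_mem : (X 2 * X 3 : MvPolynomial (Fin 4) ℂ) ∈ fanH.irrelevant := by
  have := gen_mem {0, 1} (by decide)
  rwa [show ({0, 1} : Finset (Fin 4))ᶜ = {2, 3} by decide, Finset.prod_pair (by decide)] at this

lemma FH_irr (i : Fin 3) : FH i ∈ fanH.irrelevant := by
  fin_cases i
  · have : FH 0 = X 0 * X 1 * X 1 := by simp [FH]; ring
    exact this ▸ Ideal.mul_mem_right _ _ xz_mem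
  · have : FH 1 = X 0 * X 3 + X 1 * X 2 * X 2 := by simp [FH]; ring
    exact this ▸ add_mem xw_mem (Ideal.mul_mem_right _ _ zy_mem)
  · have : FH 2 = X 2 * X 3 := by simp [FH]
    exact this ▸ yw_mem

lemma FH_ne (i : Fin 3) : FH i ≠ 0 := by
  intro h
  have := congrArg (eval (fun _ => (1 : ℂ))) h
  fin_cases i <;> simp [FH] at this

lemma no_common_zero :
    zeroLocus ℂ (Ideal.span (Set.range FH)) ⊆ zeroLocus ℂ fanH.irrelevant := by
  intro p hp
  have h0 := hp (FH 0) (Ideal.subset_span ⟨0, rfl⟩)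
  have h1 := hp (FH 1) (Ideal.subset_span ⟨1, rfl⟩)
  have h2 := hp (FH 2) (Ideal.subset_span ⟨2, rfl⟩)
  simp [FH] at h0 h1 h2
  have key : (p 0 = 0 ∧ p 2 = 0) ∨ (p 1 = 0 ∧ p 3 = 0) := by
    rcases h0 with h0 | h0 <;> rcases h2 with h2 | h2 <;> simp_all
  rw [CompleteSimplicialFan.irrelevant, zeroLocus_span]
  rintro _ ⟨s, hs, rfl⟩
  have nb := not_both hs
  rw [map_prod]
  rcases key with k | k
  · rcases nb.1 with h | h
    · exact Finset.prod_eq_zero (Finset.mem_compl.2 h) (by simp [k.1])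
    · exact Finset.prod_eq_zero (Finset.mem_compl.2 h) (by simp [k.2])
  · rcases nb.2 with h | h
    · exact Finset.prod_eq_zero (Finset.mem_compl.2 h) (by simp [k.1])
    · exact Finset.prod_eq_zero (Finset.mem_compl.2 h) (by simp [k.2])

/-- Two linear forms vanishing on the ideal. -/
noncomputable def L : MvPolynomial (Fin 4) ℂ →ₗ[ℂ] ℂ × ℂ :=
  (lcoeff ℂ (ex 0 0 0 2)).prod (lcoeff ℂ (ex 1 1 0 1) - lcoeff ℂ (ex 0 2 2 0))

lemma L_apply (p : MvPolynomial (Fin 4) ℂ) :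
    L p = (coeff (ex 0 0 0 2) p, coeff (ex 1 1 0 1) p - coeff (ex 0 2 2 0) p) := rfl

lemma L_ideal (p : MvPolynomial (Fin 4) ℂ) (hp : p ∈ Ideal.span (Set.range FH)) : L p = 0 := by
  obtain ⟨g, rfl⟩ := Ideal.mem_span_range_iff_exists_fun.1 hp
  rw [Fin.sum_univ_three, FH0, FH1, FH2, L_apply]
  simp [mul_add, coeff_mul_monomial', ex_le, ex_sub]

lemma piece_decomp (p : MvPolynomial (Fin 4) ℂ)
    (hp : p ∈ fanH.piece (QuotientAddGroup.mk ![0, 0, 0, 2])) :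
    p = monomial (ex 0 0 0 2) (coeff (ex 0 0 0 2) p) + monomial (ex 1 1 0 1) (coeff (ex 1 1 0 1) p)
      + monomial (ex 0 1 1 1) (coeff (ex 0 1 1 1) p) + monomial (ex 2 2 0 0) (coeff (ex 2 2 0 0) p)
      + monomial (ex 1 2 1 0) (coeff (ex 1 2 1 0) p)
      + monomial (ex 0 2 2 0) (coeff (ex 0 2 2 0) p) := by
  ext e
  obtain ⟨a, b, c, d, rfl⟩ : ∃ a b c d, e = ex a b c d := ⟨_, _, _, _, eq_ex e⟩
  simp only [coeff_add, coeff_monomial, ex_inj]
  by_cases hcases : (a = 0 ∧ b = 0 ∧ c = 0 ∧ d = 2) ∨ (a = 1 ∧ b = 1 ∧ c = 0 ∧ d = 1) ∨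
        (a = 0 ∧ b = 1 ∧ c = 1 ∧ d = 1) ∨ (a = 2 ∧ b = 2 ∧ c = 0 ∧ d = 0) ∨
        (a = 1 ∧ b = 2 ∧ c = 1 ∧ d = 0) ∨ (a = 0 ∧ b = 2 ∧ c = 2 ∧ d = 0)
  · rcases hcases with h | h | h | h | h | h <;> obtain ⟨rfl, rfl, rfl, rfl⟩ := h <;> simp
  · have h : coeff (ex a b c d) p = 0 := by
      by_contra h
      have := hp h
      rw [weight_eq, mk_eq_iff] at this
      simp at this
      omega
    rw [h, if_neg (by omega), if_neg (by omega), if_neg (by omega), if_neg (by omega),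
      if_neg (by omega), if_neg (by omega)]
    simp

lemma mem_ideal_of_L (p : MvPolynomial (Fin 4) ℂ)
    (hp : p ∈ fanH.piece (QuotientAddGroup.mk ![0, 0, 0, 2])) (h : L p = 0) :
    p ∈ Ideal.span (Set.range FH) := by
  rw [L_apply, Prod.mk_eq_zero, sub_eq_zero] at h
  rw [Ideal.mem_span_range_iff_exists_fun]
  refine ⟨![C (coeff (ex 2 2 0 0) p) * X 0 + C (coeff (ex 1 2 1 0) p) * X 2,
    C (coeff (ex 0 2 2 0) p) * X 1, C (coeff (ex 0 1 1 1) p) * X 1], ?_⟩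
  conv_rhs => rw [piece_decomp p hp, h.1, h.2]
  simp only [Fin.sum_univ_three, monomial_ex, FH]
  simp
  ring

theorem main :
    ∃ (Φ : CompleteSimplicialFan 2 4) (F : Fin (2 + 1) → MvPolynomial (Fin 4) ℂ)
      (α : Fin (2 + 1) → Φ.Cl),
      Φ.u = ![![1, 0], ![0, 1], ![-1, 1], ![0, -1]] ∧
      F = ![X 0 * X 1 ^ 2, X 0 * X 3 + X 2 ^ 2 * X 1, X 2 * X 3] ∧
      (∀ i, F i ≠ 0) ∧ (∀ i, F i ∈ Φ.piece (α i)) ∧ (∀ i, F i ∈ Φ.irrelevant) ∧
      zeroLocus ℂ (Ideal.span (Set.range F)) ⊆ zeroLocus ℂ Φ.irrelevant ∧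
      Module.finrank ℂ (Φ.piece (Φ.critical α) ⧸
        Φ.idealPiece (Ideal.span (Set.range F)) (Φ.critical α)) = 2 := by
  refine ⟨fanH, FH, αH, rfl, rfl, FH_ne, FH_mem, FH_irr, no_common_zero, ?_⟩
  rw [critical_eq]
  set ω : fanH.Cl := QuotientAddGroup.mk ![0, 0, 0, 2] with hω
  let L' : fanH.piece ω →ₗ[ℂ] ℂ × ℂ := L.comp (fanH.piece ω).subtype
  have hker : fanH.idealPiece (Ideal.span (Set.range FH)) ω = LinearMap.ker L' := by
    ext ⟨p, hp⟩
    exact ⟨fun h => L_ideal p h, fun h => mem_ideal_of_L p hp h⟩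
  have hsurj : Function.Surjective L' := by
    rintro ⟨s, t⟩
    refine ⟨⟨monomial (ex 0 0 0 2) s + monomial (ex 1 1 0 1) t,
      add_mem (mono_mem 0 0 0 2 s _ (by simp)) (mono_mem 1 1 0 1 t _ (by simp))⟩, ?_⟩
    simp [L', L_apply, coeff_monomial, ex_inj]
  rw [hker, (L'.quotKerEquivOfSurjective hsurj).finrank_eq]
  simp

end Pool.Agent.P.MP_95a67a_ag
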