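import Pool.Agent.P.MP_95a67a_ag.Fan

namespace Pool.Agent.P.MP_95a67a_ag.CompleteSimplicialFan

open MvPolynomial Finset

variable {n r : ℕ} (Φ : CompleteSimplicialFan n r)

theorem weight_mk (d : Fin r →₀ ℕ) :
    Finsupp.weight Φ.degX d = (QuotientAddGroup.mk (fun i => (d i : ℤ)) : Φ.Cl) := by
  rw [Finsupp.weight_apply, Finsupp.sum_fintype _ _ (by simp)]
  simp only [degX]
  rw [show (QuotientAddGroup.mk (fun i => (d i : ℤ)) : Φ.Cl) =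
    QuotientAddGroup.mk' _ (fun i => (d i : ℤ)) from rfl]
  have : (fun i => (d i : ℤ)) = ∑ i : Fin r, d i • (Pi.single i 1 : Fin r → ℤ) := by
    ext j
    simp [Finset.sum_apply, Pi.single_apply]
  rw [this, map_sum]
  simp

/-- The exponent vector of an integer vector. -/
noncomputable def xp (c : Fin r → ℤ) : Fin r →₀ ℕ :=
  Finsupp.equivFunOnFinite.symm fun ρ => (c ρ).toNat

theorem xp_cast {c : Fin r → ℤ} (hc : ∀ ρ, 0 ≤ c ρ) (ρ : Fin r) : (xp c ρ : ℤ) = c ρ :=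
  Int.toNat_of_nonneg (hc ρ)

theorem mono_piece {c b : Fin r → ℤ} (hc : ∀ ρ, 0 ≤ c ρ) (h : c - b ∈ Φ.principal) (t : ℂ) :
    (monomial (xp c) t : MvPolynomial (Fin r) ℂ) ∈ Φ.piece (QuotientAddGroup.mk b) := by
  apply isWeightedHomogeneous_monomial
  rw [weight_mk, funext (xp_cast hc)]
  exact QuotientAddGroup.eq_iff_sub_mem.2 h

theorem mono_irr {s : Finset (Fin r)} (hs : s ∈ Φ.cones) {c : Fin r → ℤ} (hc : ∀ ρ ∉ s, 1 ≤ c ρ) :
    (monomial (xp c) 1 : MvPolynomial (Fin r) ℂ) ∈ Φ.irrelevant := by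
  refine Ideal.mem_of_dvd _ ?_ (Ideal.subset_span ⟨s, hs, rfl⟩)
  rw [monomial_eq, C_1, one_mul, Finsupp.prod_fintype _ _ (by simp)]
  refine (Finset.prod_dvd_prod_of_dvd _ _ fun ρ hρ => dvd_pow_self _ ?_).trans
    (Finset.prod_dvd_prod_of_subset _ _ _ (Finset.subset_univ _))
  have := hc ρ (Finset.mem_compl.1 hρ)
  show (c ρ).toNat ≠ 0
  omega

theorem aeval_xp (p : Fin r → ℂ) (c : Fin r → ℤ) :
    aeval p (monomial (xp c) (1 : ℂ)) = 0 ↔ ∃ ρ, p ρ = 0 ∧ 1 ≤ c ρ := by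
  rw [aeval_monomial, map_one, one_mul, Finsupp.prod_fintype _ _ (by simp),
    Finset.prod_eq_zero_iff]
  refine exists_congr fun ρ => ?_
  rw [pow_eq_zero_iff', show xp c ρ = (c ρ).toNat from rfl]
  simp only [Finset.mem_univ, true_and]
  exact and_congr_right fun _ => by omega

theorem finite_piece (α : Φ.Cl) : Module.Finite ℂ (Φ.piece α) := by
  obtain ⟨l, h1, h2⟩ := Φ.exists_rel
  obtain ⟨c, rfl⟩ := QuotientAddGroup.mk_surjective α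
  have : {d : Fin r →₀ ℕ | Finsupp.weight Φ.degX d = QuotientAddGroup.mk c}.Finite := by
    refine (Set.finite_Iic (Finsupp.equivFunOnFinite.symm fun _ =>
      ⌈∑ ρ, l ρ * c ρ⌉₊ : Fin r →₀ ℕ)).subset fun d hd ρ => ?_
    obtain ⟨m, hm⟩ := QuotientAddGroup.eq_iff_sub_mem.1 ((Φ.weight_mk d).symm.trans hd)
    have h3 : ∑ ρ, l ρ * d ρ = ∑ ρ, l ρ * c ρ := by
      rw [← sub_eq_zero, ← Finset.sum_sub_distrib, ← h2 (toReal m)]
      refine Finset.sum_congr rfl fun ρ _ => ?_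
      rw [pr_int, ← hm, ← mul_sub]
      simp
    have h4 : l ρ * d ρ ≤ ∑ ρ, l ρ * d ρ := Finset.single_le_sum (f := fun ρ => l ρ * d ρ)
      (fun ρ _ => mul_nonneg (zero_le_one.trans (h1 ρ)) (Nat.cast_nonneg _)) (Finset.mem_univ ρ)
    have h5 : (d ρ : ℝ) ≤ (⌈∑ ρ, l ρ * c ρ⌉₊ : ℕ) := by
      nlinarith [h1 ρ, Nat.le_ceil (∑ ρ, l ρ * c ρ), (Nat.cast_nonneg (d ρ) : (0 : ℝ) ≤ _)]
    exact_mod_cast h5
  rw [piece, weightedHomogeneousSubmodule_eq_finsupp_supported]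
  have := this.to_subtype
  exact Module.Finite.of_basis (basisRestrictSupport ℂ _)

theorem unbounded (hp : Φ.IsProjective) {a : Fin r → ℤ} (ha : ∀ ρ, 0 ≤ a ρ) (h : ¬Φ.IsNef a)
    (N : ℕ) : ∃ (F : Fin (n + 1) → MvPolynomial (Fin r) ℂ) (α : Fin (n + 1) → Φ.Cl),
      (∀ i, F i ≠ 0) ∧ (∀ i, F i ∈ Φ.piece (α i)) ∧ (∀ i, F i ∈ Φ.irrelevant) ∧
      zeroLocus ℂ (Ideal.span (Set.range F)) ⊆ zeroLocus ℂ Φ.irrelevant ∧
      Module.Finite ℂ (Φ.piece (Φ.critical α)) ∧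
      N ≤ Module.finrank ℂ (Φ.piece (Φ.critical α) ⧸
        Φ.idealPiece (Ideal.span (Set.range F)) (Φ.critical α)) := by
  classical
  obtain ⟨P, hP, m, hm⟩ := Φ.exists_nonface ha h
  obtain ⟨b, e, he⟩ := Φ.exists_face hp
  obtain ⟨δ, hδ⟩ : ∃ δ : Fin r → ℤ, ∀ ρ, δ ρ = ∑ i, m i * Φ.u ρ i := ⟨_, fun _ => rfl⟩
  have hδP : δ ∈ Φ.principal := ⟨m, hδ⟩
  simp only [← hδ] at hm
  obtain ⟨ρ₀, hρ₀⟩ : P.Nonempty := Finset.nonempty_iff_ne_empty.2 fun e => hP (e ▸ Φ.empty_mem)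
  obtain ⟨T, hT⟩ : ∃ T : ℕ, ∀ ρ, N * δ ρ < T := by
    obtain ⟨T, hT⟩ := (Set.finite_range fun ρ => N * δ ρ).bddAbove
    exact ⟨(T + 1).toNat, fun ρ => by have : N * δ ρ ≤ T := hT ⟨ρ, rfl⟩; omega⟩
  have hT1 : 1 ≤ (T : ℤ) := by have := hT ρ₀; have := hm ρ₀ hρ₀; nlinarith
  obtain ⟨A, hA⟩ : ∃ A : Fin r → ℤ, A = n • (T : ℤ) • b - 1 := ⟨_, rfl⟩
  obtain ⟨k, hk⟩ : ∃ k : ℕ, ∀ ρ, T + A ρ ≤ k := by
    obtain ⟨k, hk⟩ := (Set.finite_range fun ρ => T + A ρ).bddAbove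
    exact ⟨k.toNat, fun ρ => by have : T + A ρ ≤ k := hk ⟨ρ, rfl⟩; omega⟩
  obtain ⟨c, hc⟩ : ∃ c : Fin r → ℤ,
    ∀ ρ, c ρ = if ρ ∈ P then 0 else |A ρ| + (k + N) * |δ ρ| + 1 := ⟨_, fun _ => rfl⟩
  obtain ⟨g, hg⟩ : ∃ g : Fin r → ℤ, g = c - A + (k : ℤ) • δ := ⟨_, rfl⟩
  have g1 : ∀ ρ ∈ P, (T : ℤ) ≤ g ρ := fun ρ hρ => by
    have := hk ρ
    have := hm ρ hρ
    simp only [hg, Pi.add_apply, Pi.sub_apply, Pi.smul_apply, smul_eq_mul, hc, if_pos hρ]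
    nlinarith
  have g2 : ∀ ρ, 1 ≤ g ρ := fun ρ => by
    by_cases hρ : ρ ∈ P
    · exact hT1.trans (g1 ρ hρ)
    · simp only [hg, Pi.add_apply, Pi.sub_apply, Pi.smul_apply, smul_eq_mul, hc, if_neg hρ]
      nlinarith [le_abs_self (A ρ), neg_abs_le (δ ρ), abs_nonneg (δ ρ)]
  have c1 : ∀ (j : Fin N) ρ, 0 ≤ (c + ((j : ℕ) : ℤ) • δ) ρ := fun j ρ => by
    have : ((j : ℕ) : ℤ) < N := by exact_mod_cast j.2
    simp only [Pi.add_apply, Pi.smul_apply, smul_eq_mul, hc]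
    split_ifs with hρ
    · have := hm ρ hρ
      positivity
    · nlinarith [abs_nonneg (A ρ), neg_abs_le (δ ρ), abs_nonneg (δ ρ)]
  have c2 : ∀ (j : Fin N), ∀ ρ ∈ P, xp (c + ((j : ℕ) : ℤ) • δ) ρ = ((j : ℕ) : ℤ) * δ ρ :=
    fun j ρ hρ => by rw [xp_cast (c1 j)]; simp [hc, hρ]
  let I : Fin n → Finset (Finset (Fin r)) := fun i =>
    Φ.cones.filter fun s => s.card = i + 1 ∨ s = ∅
  have hI : ∀ i, ∀ s ∈ I i, s ∈ Φ.cones := fun i s hs => (Finset.mem_filter.1 hs).1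
  have e0 : ∀ s ∈ Φ.cones, ∀ ρ, 0 ≤ ((T : ℤ) • e s) ρ := fun s hs ρ =>
    mul_nonneg (by omega) ((he s hs).2.2.1 ρ)
  have e1 : ∀ s ∈ Φ.cones, ∀ ρ ∉ s, (T : ℤ) ≤ ((T : ℤ) • e s) ρ := fun s hs ρ hρ =>
    le_mul_of_one_le_right (by omega) ((he s hs).2.2.2 ρ hρ)
  let F : Fin (n + 1) → MvPolynomial (Fin r) ℂ :=
    Fin.cons (monomial (xp g) 1) fun i => ∑ s ∈ I i, monomial (xp ((T : ℤ) • e s)) 1
  let α : Fin (n + 1) → Φ.Cl :=
    Fin.cons (QuotientAddGroup.mk g) fun _ => QuotientAddGroup.mk ((T : ℤ) • b)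
  have hω : Φ.critical α = QuotientAddGroup.mk c := by
    have h1 : ∑ ρ, Φ.degX ρ = QuotientAddGroup.mk 1 := by
      rw [← Finset.univ_sum_single (1 : Fin r → ℤ), QuotientAddGroup.mk_sum]
      rfl
    rw [critical, h1, Fin.sum_univ_succ]
    simp only [α, Fin.cons_zero, Fin.cons_succ, Finset.sum_const, Finset.card_univ,
      Fintype.card_fin, ← QuotientAddGroup.mk_nsmul, ← QuotientAddGroup.mk_add,
      ← QuotientAddGroup.mk_sub]
    rw [QuotientAddGroup.eq_iff_sub_mem,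
      show g + n • (T : ℤ) • b - 1 - c = (k : ℤ) • δ by rw [hg, hA]; abel]
    exact zsmul_mem hδP _
  refine ⟨F, α, ?_, ?_, ?_, fun p hp' => ?_, Φ.finite_piece _, ?_⟩
  · refine Fin.cases (by simp [F]) fun i h0 => ?_
    have := congrArg (aeval fun _ => (1 : ℂ)) h0
    simp only [F, Fin.cons_succ, map_sum, aeval_monomial, map_one, one_pow, Finsupp.prod,
      Finset.prod_const_one, mul_one, Finset.sum_const, nsmul_eq_mul, map_zero, Nat.cast_eq_zero,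
      Finset.card_eq_zero] at this
    exact Finset.ne_empty_of_mem (Finset.mem_filter.2 ⟨Φ.empty_mem, Or.inr rfl⟩) this
  · refine Fin.cases (Φ.mono_piece (fun ρ => zero_le_one.trans (g2 ρ)) (by simp) 1) fun i => ?_
    refine sum_mem fun s hs => Φ.mono_piece (e0 s (hI i s hs)) ?_ 1
    rw [← smul_sub]
    exact zsmul_mem (he s (hI i s hs)).1 _
  · exact Fin.cases (Φ.mono_irr Φ.empty_mem fun ρ _ => g2 ρ) fun i => sum_mem fun s hs =>
      Φ.mono_irr (hI i s hs) fun ρ hρ => hT1.trans (e1 s (hI i s hs) ρ hρ)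
  · rw [irrelevant, zeroLocus_span]
    rintro _ ⟨s₀, hs₀, rfl⟩
    by_contra hne
    let Z := Finset.univ.filter fun ρ => p ρ = 0
    have hZ : ∀ ρ, ρ ∈ Z ↔ p ρ = 0 := fun ρ => by simp [Z]
    have hZc : Z ∈ Φ.cones := Φ.face_mem s₀ hs₀ Z fun ρ hρ => by
      by_contra h1
      rw [map_prod] at hne
      exact hne (Finset.prod_eq_zero (Finset.mem_compl.2 h1) (by simpa using (hZ ρ).1 hρ))
    obtain ⟨ρ₁, h1, -⟩ := (aeval_xp p g).1 (hp' (F 0) (Ideal.subset_span ⟨0, rfl⟩))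
    have h2 : 0 < Z.card := Finset.card_pos.2 ⟨ρ₁, (hZ _).2 h1⟩
    have h3 := Φ.card_le hZc
    have h4 := hp' (F (Fin.succ ⟨Z.card - 1, by omega⟩)) (Ideal.subset_span ⟨_, rfl⟩)
    simp only [F, Fin.cons_succ, map_sum] at h4
    rw [Finset.sum_eq_single_of_mem Z (Finset.mem_filter.2 ⟨hZc, Or.inl (by dsimp only; omega)⟩),
      aeval_xp] at h4
    · obtain ⟨ρ, h5, h6⟩ := h4
      rw [Pi.smul_apply, (he Z hZc).2.1 ρ ((hZ ρ).2 h5)] at h6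
      simp at h6
    · intro s hs hsZ
      obtain ⟨h5, h6⟩ := Finset.mem_filter.1 hs
      obtain ⟨ρ, h7, h8⟩ : ∃ ρ ∈ Z, ρ ∉ s := Finset.not_subset.1 fun h7 => by
        rcases h6 with h6 | rfl
        · exact hsZ (Finset.eq_of_subset_of_card_le h7 (by dsimp only at h6; omega)).symm
        · exact Finset.notMem_empty _ (h7 ((hZ _).2 h1))
      exact (aeval_xp p _).2 ⟨ρ, (hZ ρ).1 h7, hT1.trans (e1 s h5 ρ h8)⟩
  · have := Φ.finite_piece (Φ.critical α)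
    let ν : Fin N → Fin r →₀ ℕ := fun j => xp (c + ((j : ℕ) : ℤ) • δ)
    have hν : Function.Injective ν := fun j j' h1 => by
      have h2 := c2 j ρ₀ hρ₀
      rw [show xp _ = xp _ from h1, c2 j' ρ₀ hρ₀, mul_left_inj' (hm ρ₀ hρ₀).ne'] at h2
      exact Fin.ext (by exact_mod_cast h2.symm)
    let L : Φ.piece (Φ.critical α) →ₗ[ℂ] Fin N → ℂ :=
      LinearMap.pi (fun j => lcoeff ℂ (ν j)) ∘ₗ (Φ.piece _).subtype
    have hJ : Ideal.span (Set.range F) ≤ Ideal.span ((fun s => monomial s (1 : ℂ)) ''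
        ((fun ρ => Finsupp.single ρ T) '' P)) := by
      have hm : ∀ v : Fin r → ℤ, (∃ ρ ∈ P, (T : ℤ) ≤ v ρ) → monomial (xp v) (1 : ℂ) ∈
          Ideal.span ((fun s => monomial s (1 : ℂ)) '' ((fun ρ => Finsupp.single ρ T) '' P)) := by
        rintro v ⟨ρ, h1, h2⟩
        refine mem_ideal_span_monomial_image.2 fun d hd => ⟨_, ⟨ρ, h1, rfl⟩, ?_⟩
        rw [Finset.mem_singleton.1 (support_monomial_subset hd), Finsupp.single_le_iff]
        show T ≤ (v ρ).toNat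
        omega
      refine Ideal.span_le.2 ?_
      rintro _ ⟨i, rfl⟩
      refine Fin.cases (hm g ⟨ρ₀, hρ₀, g1 ρ₀ hρ₀⟩) (fun i => sum_mem fun s hs => hm _ ?_) i
      obtain ⟨ρ, h1, h2⟩ := Finset.not_subset.1 fun h1 => hP (Φ.face_mem s (hI i s hs) P h1)
      exact ⟨ρ, h1, e1 s (hI i s hs) ρ h2⟩
    have hker : Φ.idealPiece (Ideal.span (Set.range F)) (Φ.critical α) ≤ LinearMap.ker L := by
      intro q hq
      funext j
      by_contra h1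
      obtain ⟨_, ⟨ρ, h2, rfl⟩, h3⟩ :=
        mem_ideal_span_monomial_image.1 (hJ hq) (ν j) (mem_support_iff.2 h1)
      have h4 : ((j : ℕ) : ℤ) < N := by exact_mod_cast j.2
      have h5 : (T : ℤ) ≤ ν j ρ := by exact_mod_cast Finsupp.single_le_iff.1 h3
      rw [c2 j ρ h2] at h5
      nlinarith [hT ρ, hm ρ h2]
    have hs : Function.Surjective L := fun y => by
      refine ⟨⟨∑ j, monomial (ν j) (y j), sum_mem fun j _ => ?_⟩, funext fun j => ?_⟩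
      · rw [hω]
        exact Φ.mono_piece (c1 j) (by rw [add_sub_cancel_left]; exact zsmul_mem hδP _) _
      · simp [L, coeff_monomial, hν.eq_iff]
    have h1 := LinearMap.finrank_le_finrank_of_surjective (f := Submodule.liftQ _ L hker)
      fun y => let ⟨x, hx⟩ := hs y; ⟨Submodule.Quotient.mk x, hx⟩
    simpa using h1

end Pool.Agent.P.MP_95a67a_ag.CompleteSimplicialFan
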